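import Pool.Agent.W670.ML.Parts1

/-!
# MP_b39724_nt: counting over any base field by counts over ℚ
-/

set_option autoImplicit false

namespace Pool.Agent.Results.MP_b39724_nt.ComparisonWithRationals

open NumberField Pool.Agent.W670.ML

/-- For every number field `K`, every transitive `G` in `S_n` and every `X`, the number
`N K n G X` of `G`-fields over `K` is at most the sum of the numbers of `H`-fields over `ℚ` of
degree `N' = n [K : ℚ]` with discriminant at most `|d_K| ^ n X`, over the transitive subgroups `H`
of `S_{N'}` whose nontrivial elements have index at least `ind(G)`. -/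
theorem result : ∀ (K : Type) [Field K] [NumberField K] (n : ℕ)
    (G : Subgroup (Equiv.Perm (Fin n))), 2 ≤ n → Trans G → ∀ m : ℕ, MinInd G m → ∀ X : ℝ,
      N K n G X ≤ ∑ H ∈ bigInd (n * Module.finrank ℚ K) m,
        N ℚ (n * Module.finrank ℚ K) H (((discr K).natAbs : ℝ) ^ n * X) :=
  cmpp

end Pool.Agent.Results.MP_b39724_nt.ComparisonWithRationals
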